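import Pool.Agent.L0h89.FK.Ray
import Pool.Agent.L0h89.FK.Exh
import Pool.Agent.L0h89.FK.NCa
import Pool.Agent.L0h89.FK.NCb
import Pool.Agent.L0h89.FK.NCc
import Pool.Agent.L0h89.FK.Tl
import Pool.Agent.L0h89.FK.Dm
import Pool.Agent.L0h89.FK.Bi
import Pool.Agent.L0h89.FK.Lm
import Pool.Agent.L0h89.FK.DL
import Pool.Agent.L0h89.FK.HL
import Pool.Agent.L0h89.FK.LP
import Pool.Agent.L0h89.FK.LF
import Pool.Agent.L0h89.FK.ER

/-!
# The fractional Kolmogorov fundamental solution: exact asymptotics at infinity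

For `d ≥ 1`, `0 < s < 1` and `t > 0`, let `K` be the probability density on `ℝᵈ × ℝᵈ` with Fourier
transform `exp(-∫_0^t |ξ + τ ψ|^{2s} dτ)`.  The theorem describes its behaviour along all sequences
tending to infinity: `K` is asymptotic to the homogeneous function `H` (two jumps) uniformly as the
distance to the cone `{(τ v, v) : 0 ≤ τ ≤ t}` tends to infinity, and at bounded distance from this
cone `|v|^{d+1+2s} K` has an explicit positive limit (one jump and a stable density).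
-/

set_option autoImplicit false

open MeasureTheory Set Filter Topology
open scoped ENNReal RealInnerProductSpace

namespace Pool.Agent.Results.MP_bd80ac_an.KernelAsymptotics

/-- the space `ℝᵈ` -/
abbrev V (d : ℕ) : Type := EuclideanSpace ℝ (Fin d)

/-- the exponent `Φ_t(ψ,ξ) = ∫_0^t |ξ + τ ψ|^{2s} dτ` -/
noncomputable def Phi (d : ℕ) (s t : ℝ) (ψ ξ : V d) : ℝ :=
  ∫ τ in (0 : ℝ)..t, ‖ξ + τ • ψ‖ ^ (2 * s)

/-- the fundamental solution at time `t` (total mass one), by Fourier inversion -/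
noncomputable def K (d : ℕ) (s t : ℝ) (x v : V d) : ℝ :=
  ((2 * Real.pi) ^ (2 * d))⁻¹ *
    ∫ p : V d × V d, Real.cos (⟪x, p.1⟫ + ⟪v, p.2⟫) * Real.exp (-Phi d s t p.1 p.2)

/-- the constant of the fractional Laplacian -/
noncomputable def cds (d : ℕ) (s : ℝ) : ℝ :=
  s * 4 ^ s * Real.Gamma ((d : ℝ) / 2 + s) / (Real.pi ^ ((d : ℝ) / 2) * Real.Gamma (1 - s))

/-- the two jump profile, homogeneous of degree `-(2d + 4s)` -/
noncomputable def H (d : ℕ) (s t : ℝ) (x v : V d) : ℝ :=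
  1 / 2 * cds d s ^ 2 * ∫ τ₁ in (0 : ℝ)..t, ∫ τ₂ in (0 : ℝ)..t,
    |τ₁ - τ₂| ^ (d + 4 * s) * ‖x - τ₁ • v‖ ^ (-(d + 2 * s)) * ‖x - τ₂ • v‖ ^ (-(d + 2 * s))

/-- the isotropic stable density on `ℝᵈ` with characteristic function `exp(-A |θ|^{2s})` -/
noncomputable def stab (d : ℕ) (s A : ℝ) (y : V d) : ℝ :=
  ((2 * Real.pi) ^ d)⁻¹ * ∫ θ : V d, Real.cos ⟪y, θ⟫ * Real.exp (-(A * ‖θ‖ ^ (2 * s)))

/-- the exponent `∫_0^t |τ - τ₀|^{2s} dτ` -/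
noncomputable def expo (s t τ₀ : ℝ) : ℝ :=
  (τ₀ ^ (2 * s + 1) + (t - τ₀) ^ (2 * s + 1)) / (2 * s + 1)

/-- the open interval `(-a, b)` of real numbers, for extended real numbers `a`, `b` -/
def window (a b : EReal) : Set ℝ := {σ : ℝ | -a < (σ : EReal) ∧ (σ : EReal) < b}

/-- a sequence of points whose velocities tend to infinity and which stay at bounded distance from
the cone, with the parameters of the limit: with `τ_k = ⟨x_k,v_k⟩/|v_k|²`, the numbers `τ_k`,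
`|x_k - τ_k v_k|`, `|v_k| τ_k` and `|v_k| (t - τ_k)` tend to `τ₀`, `w₀`, `a` and `b` -/
structure Along (d : ℕ) (t : ℝ) (x v : ℕ → V d) (τ₀ w₀ : ℝ) (a b : EReal) : Prop where
  tR : Tendsto (fun k => ‖v k‖) atTop atTop
  tτ : Tendsto (fun k => ⟪x k, v k⟫ / ‖v k‖ ^ 2) atTop (𝓝 τ₀)
  mem : τ₀ ∈ Icc (0 : ℝ) t
  tw : Tendsto (fun k => ‖x k - (⟪x k, v k⟫ / ‖v k‖ ^ 2) • v k‖) atTop (𝓝 w₀)
  ta : Tendsto (fun k => ((‖v k‖ * (⟪x k, v k⟫ / ‖v k‖ ^ 2) : ℝ) : EReal)) atTop (𝓝 a)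
  tb : Tendsto (fun k => ((‖v k‖ * (t - ⟪x k, v k⟫ / ‖v k‖ ^ 2) : ℝ) : EReal)) atTop (𝓝 b)

/-- the integral of the stable density over a line through the origin -/
noncomputable def lineConst (d : ℕ) (s t τ₀ : ℝ) : ℝ :=
  (4 * Real.pi) ^ (-(((d : ℝ) - 1) / 2)) *
    (Real.Gamma (((d : ℝ) - 1) / (2 * s) + 1) / Real.Gamma (((d : ℝ) - 1) / 2 + 1)) *
    expo s t τ₀ ^ (-(((d : ℝ) - 1) / (2 * s)))

open Pool.Agent.L0h89 in
lemma uniform : FK.StmtU :=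
  FK.U.main (FK.NCa.main FK.N1.main) (FK.NCb.main FK.N1.main FK.Tl.main)
    (FK.NCc.main FK.N1.main (FK.N2.main FK.N1.main))
    (FK.DL.main FK.N1.main FK.Lm.main) (FK.HL.main FK.Lm.main)
    FK.LP.main (FK.LF.main FK.Dm.main FK.Bi.main FK.Lm.main) FK.ER.main

open Pool.Agent.L0h89 in
theorem result (d : ℕ) (hd : 1 ≤ d) (s : ℝ) (hs : 0 < s) (hs1 : s < 1) (t : ℝ) (ht : 0 < t) :
    -- `K` is the positive probability density with Fourier transform `exp(-Φ_t)`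
    ((∀ x v : V d, 0 < K d s t x v) ∧ Integrable (fun p : V d × V d => K d s t p.1 p.2) ∧
      ∀ ψ ξ : V d, ∫ p : V d × V d,
        Complex.exp (-Complex.I * ((⟪p.1, ψ⟫ + ⟪p.2, ξ⟫ : ℝ) : ℂ)) * (K d s t p.1 p.2 : ℂ) =
          (Real.exp (-Phi d s t ψ ξ) : ℂ)) ∧
    -- the homogeneous profile
    ((∀ x v : V d, (∀ τ ∈ Icc (0 : ℝ) t, x ≠ τ • v) → 0 < H d s t x v) ∧
      ∀ r : ℝ, 0 < r → ∀ x v : V d,
        H d s t (r • x) (r • v) = r ^ (-(2 * d + 4 * s)) * H d s t x v) ∧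
    -- far from the cone
    (∀ ε : ℝ, 0 < ε → ∃ L : ℝ, ∀ x v : V d, (∀ τ ∈ Icc (0 : ℝ) t, L ≤ ‖x - τ • v‖) →
      |K d s t x v / H d s t x v - 1| ≤ ε) ∧
    -- directions off the cone
    (∀ x v : V d, (∀ τ ∈ Icc (0 : ℝ) t, x ≠ τ • v) →
      Tendsto (fun r : ℝ => r ^ (2 * d + 4 * s) * K d s t (r • x) (r • v)) atTop
        (𝓝 (H d s t x v))) ∧
    -- at bounded distance from the cone
    (∀ (x v : ℕ → V d) (τ₀ w₀ : ℝ) (a b : EReal) (e : V d), ‖e‖ = 1 → -a < b →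
      Along d t x v τ₀ w₀ a b →
      0 < ∫ σ in window a b, stab d s (expo s t τ₀) (Real.sqrt (w₀ ^ 2 + σ ^ 2) • e) ∧
      Tendsto (fun k => ‖v k‖ ^ (d + 1 + 2 * s) * K d s t (x k) (v k)) atTop
        (𝓝 (cds d s * ∫ σ in window a b,
          stab d s (expo s t τ₀) (Real.sqrt (w₀ ^ 2 + σ ^ 2) • e)))) ∧
    -- directions on the cone
    (∀ τ₀ ∈ Icc (0 : ℝ) t, ∀ v : V d, v ≠ 0 →
      Tendsto (fun r : ℝ => r ^ (d + 1 + 2 * s) * K d s t (r • (τ₀ • v)) (r • v)) atTop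
        (𝓝 (‖v‖ ^ (-(d + 1 + 2 * s)) * ((if τ₀ = 0 ∨ τ₀ = t then 1 / 2 else 1) *
          (cds d s * lineConst d s t τ₀))))) ∧
    -- every sequence tending to infinity has a subsequence of one of the two kinds
    (∀ x v : ℕ → V d, Tendsto (fun k => ‖x k‖ + ‖v k‖) atTop atTop →
      ∃ φ : ℕ → ℕ, StrictMono φ ∧
        ((∀ L : ℝ, ∀ᶠ k in atTop, ∀ τ ∈ Icc (0 : ℝ) t, L ≤ ‖x (φ k) - τ • v (φ k)‖) ∨
          ∃ (τ₀ w₀ : ℝ) (a b : EReal), -a < b ∧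
            Along d t (fun k => x (φ k)) (fun k => v (φ k)) τ₀ w₀ a b)) := by
  refine ⟨FK.F.main FK.P.main FK.N1.main (FK.R.main FK.N1.main) s t hs hs1 ht d hd,
    ⟨fun x v h => (FK.H.main s t hs hs1 ht d hd x v h).1, fun r hr x v =>
      FK.U.H_homog d s t r hr x v⟩, fun ε hε => uniform s t hs hs1 ht d hd ε hε, ?_, ?_, ?_, ?_⟩
  · intro x v h
    have h1 : Tendsto (fun r : ℝ => (r, (x, v))) atTop (atTop ×ˢ 𝓝 (x, v)) :=
      tendsto_id.prodMk tendsto_const_nhds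
    exact (FK.Fin.off_cone hs hs1 ht d hd x v h).2.comp h1
  · intro x v τ₀ w₀ a b e he hab h
    have h1 := FK.Fin.cone_real hs hs1 ht d hd x v τ₀ w₀ a b e he h.tR h.tτ h.mem h.tw h.ta h.tb
    exact ⟨h1.2.1 hab, h1.2.2⟩
  · intro τ₀ hτ₀ v hv
    exact FK.Fin.ray hs hs1 ht d hd τ₀ hτ₀ v hv
  · intro x v h
    obtain ⟨φ, hφ, h1⟩ := FK.Exh.exhaust ht d x v h
    refine ⟨φ, hφ, ?_⟩
    rcases h1 with h1 | ⟨τ₀, w₀, a, b, hab, h2⟩
    · exact Or.inl h1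
    · exact Or.inr ⟨τ₀, w₀, a, b, hab, ⟨h2.tR, h2.tτ, h2.mem, h2.tw, h2.ta, h2.tb⟩⟩

end Pool.Agent.Results.MP_bd80ac_an.KernelAsymptotics
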